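import Pool.Agent.Y699.Tq
import Pool.Agent.H285R3.Str.PerCx
import Pool.Agent.Y255.LT.LAT

/-!
# The lattice of `y² = 4 x³ - 4 x` on the real axis
-/

set_option autoImplicit false
set_option linter.unusedSectionVars false

open Filter Complex Set
open scoped Topology PeriodPair
open H667R3 hiding sq
open Pool.Agent.TH936.CM Pool.Agent.W192.HK

namespace Pool.Agent.E8helper97.Q2

open Pool.Agent.Y699
open H385 (ZI RQ im1 nrm)
open Pool.Agent.H304R3.HK (tc)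
open Pool.Agent.W164.RC (tc_mul tc_star two2)
open Pool.Agent.H285R3.Str (P_conj P'_conj)

variable {L : PeriodPair} {Ω : ℂ}

lemma gconj (h : GLat L Ω) : ∀ w ∈ L.lattice, (starRingEnd ℂ) w ∈ L.lattice :=
  Pool.Agent.Y255.LAT.conj_mem L 4 0 (by rw [h.g2]; norm_num) (by rw [h.g3]; norm_num)

lemma gI (h : GLat L Ω) : GLat L (I * Ω) := by
  refine ⟨⟨mul_ne_zero I_ne_zero h.lat.ne, fun z => ?_⟩, h.g2, h.g3⟩
  rw [h.lat.mem]
  constructor
  · rintro ⟨r, hr⟩
    obtain ⟨a, ha⟩ := mem_RG.1 r.2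
    refine ⟨⟨tc (-im1 * a), mem_RG.2 ⟨_, rfl⟩⟩, ?_⟩
    show z = I * Ω * tc (-im1 * a)
    rw [hr, ha, tc_mul, tc_neg, tc_im1]
    linear_combination (Ω * tc a) * I_sq
  · rintro ⟨r, hr⟩
    obtain ⟨a, ha⟩ := mem_RG.1 r.2
    refine ⟨⟨tc (im1 * a), mem_RG.2 ⟨_, rfl⟩⟩, ?_⟩
    show z = Ω * tc (im1 * a)
    rw [hr, ha, tc_mul, tc_im1]
    ring

lemma gneg (h : GLat L Ω) : GLat L (-Ω) := by
  have := gI (gI h)
  have e : I * (I * Ω) = -Ω := by linear_combination Ω * I_sq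
  rwa [e] at this

lemma real_case (h : GLat L Ω) (hr : (starRingEnd ℂ) Ω = Ω) : ∃ A : ℝ, 0 < A ∧ GLat L (A : ℂ) := by
  have h1 : ((Ω.re : ℝ) : ℂ) = Ω := Complex.conj_eq_iff_re.1 hr
  have h2 : Ω.re ≠ 0 := by
    intro h0
    apply h.lat.ne
    rw [← h1, h0, ofReal_zero]
  rcases lt_or_gt_of_ne h2 with h3 | h3
  · refine ⟨-Ω.re, by linarith, ?_⟩
    push_cast
    rw [h1]
    exact gneg h
  · refine ⟨Ω.re, h3, ?_⟩
    rw [h1]
    exact h

theorem exists_real : ∃ (L : PeriodPair) (A : ℝ), 0 < A ∧ GLat L (A : ℂ) := by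
  obtain ⟨L, Ω, h⟩ := exists_GL
  obtain ⟨a, ha⟩ := (mem_lat h.lat).1 (gconj h Ω h.om)
  have hn : a.re ^ 2 + a.im ^ 2 = 1 := by
    have h1 := congrArg normSq ha
    rw [normSq_conj, normSq_mul] at h1
    have h2 : normSq Ω ≠ 0 := by rw [Ne, normSq_eq_zero]; exact h.lat.ne
    have h3 : normSq (tc a) = 1 := by
      have : normSq Ω * (normSq (tc a) - 1) = 0 := by linarith
      have := (mul_eq_zero.1 this).resolve_left h2
      linarith
    have h4 : normSq (tc a) = ((a.re ^ 2 + a.im ^ 2 : ℤ) : ℝ) := by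
      unfold tc
      rw [normSq_apply]
      simp
      ring
    rw [h4] at h3
    exact_mod_cast h3
  have hbad : ∀ w : ℂ, (w = I * (Ω / 2) ∨ w = -(I * (Ω / 2))) → (starRingEnd ℂ) (Ω / 2) = w → False := by
    intro w hw hcw
    have h1 := P_conj L (gconj h) (Ω / 2)
    change ℘[L] ((starRingEnd ℂ) (Ω / 2)) = (starRingEnd ℂ) (℘[L] (Ω / 2)) at h1
    have h2 : ℘[L] w = -℘[L] (Ω / 2) := by
      rcases hw with rfl | rfl
      · exact wp_I h.lat _
      · rw [L.weierstrassP_neg]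
        exact wp_I h.lat _
    rw [hcw, h2] at h1
    have h3 := h.e1_sq
    have h4 : (℘[L] (Ω / 2) - 1) * (℘[L] (Ω / 2) + 1) = 0 := by linear_combination h3
    rcases mul_eq_zero.1 h4 with h5 | h5
    · have h6 : ℘[L] (Ω / 2) = 1 := by linear_combination h5
      rw [h6, map_one] at h1
      norm_num at h1
    · have h6 : ℘[L] (Ω / 2) = -1 := by linear_combination h5
      rw [h6, map_neg, map_one] at h1
      norm_num at h1
  have hre : a.re = 0 ∨ a.im = 0 := by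
    by_contra hc
    push Not at hc
    have h1 : 1 ≤ a.re ^ 2 := by
      have := hc.1
      rcases lt_or_gt_of_ne this with h | h <;> nlinarith
    have h2 : 1 ≤ a.im ^ 2 := by
      have := hc.2
      rcases lt_or_gt_of_ne this with h | h <;> nlinarith
    omega
  rcases hre with h0 | h0
  · rw [h0] at hn
    have h1 : (a.im - 1) * (a.im + 1) = 0 := by linarith
    exfalso
    rcases mul_eq_zero.1 h1 with h2 | h2
    · have e : tc a = I := by
        unfold tc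
        rw [h0, show a.im = 1 by omega]
        simp
      refine hbad _ (Or.inl rfl) ?_
      rw [map_div₀, ha, e, map_ofNat]
      ring
    · have e : tc a = -I := by
        unfold tc
        rw [h0, show a.im = -1 by omega]
        simp
      refine hbad _ (Or.inr rfl) ?_
      rw [map_div₀, ha, e, map_ofNat]
      ring
  · rw [h0] at hn
    have h1 : (a.re - 1) * (a.re + 1) = 0 := by linarith
    rcases mul_eq_zero.1 h1 with h2 | h2
    · have e : tc a = 1 := by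
        unfold tc
        rw [h0, show a.re = 1 by omega]
        simp
      obtain ⟨A, hA, hG⟩ := real_case h (by rw [ha, e, mul_one])
      exact ⟨L, A, hA, hG⟩
    · have e : tc a = -1 := by
        unfold tc
        rw [h0, show a.re = -1 by omega]
        simp
      obtain ⟨A, hA, hG⟩ := real_case (gI h) (by rw [map_mul, conj_I, ha, e]; ring)
      exact ⟨L, A, hA, hG⟩

/-! ### the real axis -/

section
variable {A : ℝ} (h : GLat L (A : ℂ)) (hA : 0 < A)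
include h

lemma mem_parts {z : ℂ} (hz : z ∈ L.lattice) : ∃ m n : ℤ, z.re = m * A ∧ z.im = n * A := by
  obtain ⟨a, ha⟩ := (mem_lat h.lat).1 hz
  refine ⟨a.re, a.im, ?_, ?_⟩
  · rw [ha]
    unfold tc
    simp
    ring
  · rw [ha]
    unfold tc
    simp
    ring

include hA

lemma not_of_re {z : ℂ} (k : ℤ) (h1 : k * A < z.re) (h2 : z.re < (k + 1) * A) : z ∉ L.lattice := by
  intro hz
  obtain ⟨m, n, hm, -⟩ := mem_parts h hz
  rw [hm] at h1 h2
  have h3 := lt_of_mul_lt_mul_right h1 hA.le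
  have h4 := lt_of_mul_lt_mul_right h2 hA.le
  have h5 : k < m := by exact_mod_cast h3
  have h6 : m < k + 1 := by exact_mod_cast h4
  omega

lemma not_of_im {z : ℂ} (k : ℤ) (h1 : k * A < z.im) (h2 : z.im < (k + 1) * A) : z ∉ L.lattice := by
  intro hz
  obtain ⟨m, n, -, hm⟩ := mem_parts h hz
  rw [hm] at h1 h2
  have h3 := lt_of_mul_lt_mul_right h1 hA.le
  have h4 := lt_of_mul_lt_mul_right h2 hA.le
  have h5 : k < n := by exact_mod_cast h3
  have h6 : n < k + 1 := by exact_mod_cast h4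
  omega

omit hA in
lemma wp_real (x : ℝ) : ℘[L] (x : ℂ) = ((℘[L] (x : ℂ)).re : ℂ) := by
  have := P_conj L (gconj h) x
  rw [Complex.conj_ofReal] at this
  exact (Complex.conj_eq_iff_re.1 this.symm).symm

omit hA in
lemma wp'_real (x : ℝ) : ℘'[L] (x : ℂ) = ((℘'[L] (x : ℂ)).re : ℂ) := by
  have := P'_conj L (gconj h) x
  rw [Complex.conj_ofReal] at this
  exact (Complex.conj_eq_iff_re.1 this.symm).symm

lemma real_notMem {x : ℝ} (h0 : 0 < x) (h1 : x < A) : (x : ℂ) ∉ L.lattice :=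
  not_of_re h hA 0 (by simpa using h0) (by simpa using h1)

/-- the value at `x` is not `± 1` -/
lemma p_sq_ne {x : ℝ} (h0 : 0 < x) (h1 : x < A / 2) : (℘[L] (x : ℂ)).re ^ 2 ≠ 1 := by
  intro hp
  have hx := real_notMem h hA h0 (by linarith)
  have h2 : (℘[L] (x : ℂ) - ℘[L] ((A : ℂ) / 2)) * (℘[L] (x : ℂ) + ℘[L] ((A : ℂ) / 2)) = 0 := by
    have h3 := h.e1_sq
    have h4 : ℘[L] (x : ℂ) ^ 2 = 1 := by
      rw [wp_real h x]
      exact_mod_cast hp
    linear_combination h4 - h3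
  rcases mul_eq_zero.1 h2 with h3 | h3
  · have h4 : ℘[L] (x : ℂ) = ℘[L] ((A : ℂ) / 2) := by linear_combination h3
    rw [wp_eq_iff L hx h.half] at h4
    rcases h4 with h4 | h4
    · refine not_of_re h hA 0 ?_ ?_ h4
      · simp; linarith
      · simp; linarith
    · refine not_of_re h hA (-1) ?_ ?_ h4
      · simp; linarith
      · simp; linarith
  · have hI : I * ((A : ℂ) / 2) ∉ L.lattice := not_of_im h hA 0 (by simp; linarith) (by simp; linarith)
    have h4 : ℘[L] (x : ℂ) = ℘[L] (I * ((A : ℂ) / 2)) := by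
      rw [wp_I h.lat]
      linear_combination h3
    rw [wp_eq_iff L hx hI] at h4
    rcases h4 with h4 | h4
    · refine not_of_im h hA 0 ?_ ?_ h4
      · simp; linarith
      · simp; linarith
    · refine not_of_im h hA (-1) ?_ ?_ h4
      · simp; linarith
      · simp; linarith

lemma p_deriv {x : ℝ} (h0 : 0 < x) (h1 : x < A) :
    HasDerivAt (fun x : ℝ => (℘[L] (x : ℂ)).re) (℘'[L] (x : ℂ)).re x := by
  have hopen : IsOpen (L.lattice : Set ℂ)ᶜ := L.isClosed_lattice.isOpen_compl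
  have hx' : (x : ℂ) ∈ (L.lattice : Set ℂ)ᶜ := real_notMem h hA h0 h1
  have h2 : DifferentiableAt ℂ L.weierstrassP x :=
    (L.differentiableOn_weierstrassP x hx').differentiableAt (hopen.mem_nhds hx')
  have h3 := h2.hasDerivAt
  rw [L.deriv_weierstrassP] at h3
  exact h3.real_of_complex

lemma q_cont : ContinuousOn (fun x : ℝ => (℘'[L] (x : ℂ)).re) (Ioo (0 : ℝ) A) := by
  have h2 : ContinuousOn L.derivWeierstrassP (L.lattice : Set ℂ)ᶜ :=
    L.differentiableOn_derivWeierstrassP.continuousOn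
  have h3 : ContinuousOn (fun x : ℝ => L.derivWeierstrassP x) (Ioo (0 : ℝ) A) :=
    h2.comp Complex.continuous_ofReal.continuousOn
      (fun x hx => real_notMem h hA hx.1 hx.2)
  exact Complex.continuous_re.comp_continuousOn h3

omit h hA in
lemma p_top : Tendsto (fun x : ℝ => (℘[L] (x : ℂ)).re) (𝓝[>] 0) atTop := by
  have h2 : ∀ x : ℝ, (℘[L] (x : ℂ)).re = (L.weierstrassPExcept 0 x).re + 1 / x ^ 2 := by
    intro x
    have h3 := L.weierstrassPExcept_add 0 x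
    simp only [Submodule.coe_zero, sub_zero] at h3
    rw [← h3]
    rw [Complex.add_re]
    congr 1
    have : (1 / (x : ℂ) ^ 2 - 1 / (0 : ℂ) ^ 2) = ((1 / x ^ 2 : ℝ) : ℂ) := by
      push_cast; simp
    rw [this, Complex.ofReal_re]
  have h3 : ContinuousAt (fun x : ℝ => (L.weierstrassPExcept 0 x).re) 0 := by
    have h4 : ContinuousAt (L.weierstrassPExcept 0) ((0 : ℝ) : ℂ) := by
      refine ((L.differentiableOn_weierstrassPExcept 0).differentiableAt ?_).continuousAt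
      exact_mod_cast L.compl_lattice_sdiff_singleton_mem_nhds 0
    exact Complex.continuous_re.continuousAt.comp
      (ContinuousAt.comp (f := fun x : ℝ => (x : ℂ)) h4 Complex.continuous_ofReal.continuousAt)
  have h4 : Tendsto (fun x : ℝ => (L.weierstrassPExcept 0 x).re) (𝓝[>] 0)
      (𝓝 (L.weierstrassPExcept 0 ((0 : ℝ) : ℂ)).re) := h3.tendsto.mono_left nhdsWithin_le_nhds
  have h5 : Tendsto (fun x : ℝ => 1 / x ^ 2) (𝓝[>] 0) atTop := by
    have h6 : Tendsto (fun x : ℝ => (x⁻¹) ^ 2) (𝓝[>] 0) atTop :=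
      (tendsto_pow_atTop two_ne_zero).comp tendsto_inv_nhdsGT_zero
    refine h6.congr fun x => ?_
    rw [one_div, inv_pow]
  have h7 := h4.add_atTop h5
  exact h7.congr fun x => (h2 x).symm

lemma p_gt {x : ℝ} (h0 : 0 < x) (h1 : x < A / 2) : 1 < (℘[L] (x : ℂ)).re := by
  by_contra hc
  rw [not_lt] at hc
  have h3 : ∀ᶠ y : ℝ in 𝓝[>] (0 : ℝ), 1 < (℘[L] (y : ℂ)).re := p_top.eventually_gt_atTop 1
  have h4 : ∀ᶠ y : ℝ in 𝓝[>] (0 : ℝ), y ∈ Ioo (0 : ℝ) x := Ioo_mem_nhdsGT h0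
  obtain ⟨y, hy, hy'⟩ := (h3.and h4).exists
  have hcont : ContinuousOn (fun x : ℝ => (℘[L] (x : ℂ)).re) (Ioo (0 : ℝ) (A / 2)) := fun t ht =>
    (p_deriv h hA ht.1 (by linarith [ht.2])).continuousAt.continuousWithinAt
  obtain ⟨t, ht, ht'⟩ := isPreconnected_Ioo.intermediate_value (a := x) (b := y)
    ⟨h0, h1⟩ ⟨hy'.1, hy'.2.trans h1⟩ hcont (show (1 : ℝ) ∈ Icc _ _ from ⟨hc, hy.le⟩)
  refine p_sq_ne h hA ht.1 ht.2 ?_
  simp only at ht'
  rw [ht']
  norm_num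

lemma e1_eq : ℘[L] ((A : ℂ) / 2) = 1 := by
  have h1 : ((A / 2 : ℝ) : ℂ) = (A : ℂ) / 2 := by push_cast; ring
  have h2 := h.e1_sq
  rw [← h1, wp_real h (A / 2)] at h2 ⊢
  have h3 : (℘[L] ((A / 2 : ℝ) : ℂ)).re ^ 2 = 1 := by exact_mod_cast h2
  have h4 : 1 ≤ (℘[L] ((A / 2 : ℝ) : ℂ)).re := by
    have h5 := (p_deriv h hA (x := A / 2) (by linarith) (by linarith)).continuousAt
    refine ge_of_tendsto (h5.tendsto.mono_left (nhdsWithin_le_nhds (s := Iio (A / 2)))) ?_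
    have h6 : ∀ᶠ y : ℝ in 𝓝[<] (A / 2), y ∈ Ioo (0 : ℝ) (A / 2) := Ioo_mem_nhdsLT (by linarith)
    filter_upwards [h6] with y hy
    exact (p_gt h hA hy.1 hy.2).le
  have h5 : ((℘[L] ((A / 2 : ℝ) : ℂ)).re - 1) * ((℘[L] ((A / 2 : ℝ) : ℂ)).re + 1) = 0 := by
    linarith
  have h6 := (mul_eq_zero.1 h5).resolve_right (by linarith)
  have h7 : (℘[L] ((A / 2 : ℝ) : ℂ)).re = 1 := by linarith
  rw [h7]
  norm_num

lemma q_ne {x : ℝ} (h0 : 0 < x) (h1 : x < A / 2) : (℘'[L] (x : ℂ)).re ≠ 0 := by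
  intro hq
  have h2 := h.eqn (real_notMem h hA h0 (by linarith))
  rw [wp'_real h x, wp_real h x, hq] at h2
  have h3 := p_gt h hA h0 h1
  have h4 : (0 : ℝ) ^ 2 = 4 * (℘[L] (x : ℂ)).re ^ 3 - 4 * (℘[L] (x : ℂ)).re := by exact_mod_cast h2
  nlinarith [mul_pos (show (0 : ℝ) < (℘[L] (x : ℂ)).re by linarith)
    (show 0 < (℘[L] (x : ℂ)).re ^ 2 - 1 by nlinarith)]

lemma q_neg {x : ℝ} (h0 : 0 < x) (h1 : x < A / 2) : (℘'[L] (x : ℂ)).re < 0 := by
  by_contra hcon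
  rw [not_lt] at hcon
  have hpos : 0 < (℘'[L] (x : ℂ)).re := lt_of_le_of_ne hcon (q_ne h hA h0 h1).symm
  have hsub : Ioo (0 : ℝ) (A / 2) ⊆ Ioo (0 : ℝ) A := Ioo_subset_Ioo_right (by linarith)
  have hall : ∀ y ∈ Ioo (0 : ℝ) (A / 2), 0 < (℘'[L] (y : ℂ)).re := by
    intro y hy
    by_contra hn
    obtain ⟨t, ht, ht'⟩ := isPreconnected_Ioo.intermediate_value hy (show x ∈ Ioo 0 (A / 2) from ⟨h0, h1⟩)
      ((q_cont h hA).mono hsub) (show (0 : ℝ) ∈ Icc _ _ from ⟨not_lt.1 hn, hpos.le⟩)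
    exact q_ne h hA ht.1 ht.2 ht'
  have hmono : StrictMonoOn (fun x : ℝ => (℘[L] (x : ℂ)).re) (Ioo (0 : ℝ) (A / 2)) := by
    refine strictMonoOn_of_deriv_pos (convex_Ioo _ _) ?_ ?_
    · intro y hy
      exact (p_deriv h hA hy.1 (hsub hy).2).continuousAt.continuousWithinAt
    · intro y hy
      rw [interior_Ioo] at hy
      rw [(p_deriv h hA hy.1 (hsub hy).2).deriv]
      exact hall y hy
  have h3 : ∀ᶠ y : ℝ in 𝓝[>] (0 : ℝ), (℘[L] (x : ℂ)).re < (℘[L] (y : ℂ)).re :=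
    p_top.eventually_gt_atTop _
  have h4 : ∀ᶠ y : ℝ in 𝓝[>] (0 : ℝ), y ∈ Ioo (0 : ℝ) x := Ioo_mem_nhdsGT h0
  obtain ⟨y, hy, hy'⟩ := (h3.and h4).exists
  have := hmono (show y ∈ Ioo 0 (A / 2) from ⟨hy'.1, hy'.2.trans h1⟩)
    (show x ∈ Ioo 0 (A / 2) from ⟨h0, h1⟩) hy'.2
  simp only at this
  linarith

lemma p_anti {x y : ℝ} (h0 : 0 < x) (hxy : x < y) (h1 : y < A / 2) :
    (℘[L] (y : ℂ)).re < (℘[L] (x : ℂ)).re := by
  have hsub : Ioo (0 : ℝ) (A / 2) ⊆ Ioo (0 : ℝ) A := Ioo_subset_Ioo_right (by linarith)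
  have hanti : StrictAntiOn (fun x : ℝ => (℘[L] (x : ℂ)).re) (Ioo (0 : ℝ) (A / 2)) := by
    refine strictAntiOn_of_deriv_neg (convex_Ioo _ _) ?_ ?_
    · intro y hy
      exact (p_deriv h hA hy.1 (hsub hy).2).continuousAt.continuousWithinAt
    · intro y hy
      rw [interior_Ioo] at hy
      rw [(p_deriv h hA hy.1 (hsub hy).2).deriv]
      exact q_neg h hA hy.1 hy.2
  exact hanti (show x ∈ Ioo 0 (A / 2) from ⟨h0, hxy.trans h1⟩)
    (show y ∈ Ioo 0 (A / 2) from ⟨h0.trans hxy, h1⟩) hxy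

/-- the value at `A / 4` -/
lemma p_quarter : (℘[L] ((A / 4 : ℝ) : ℂ)).re ^ 2 - 2 * (℘[L] ((A / 4 : ℝ) : ℂ)).re - 1 = 0 := by
  have h1 : 2 * ((A / 4 : ℝ) : ℂ) ∉ L.lattice := not_of_re h hA 0 (by simp; linarith) (by simp; linarith)
  have h2 : 2 * ((1 + I) * ((A / 4 : ℝ) : ℂ)) ∉ L.lattice :=
    not_of_re h hA 0 (by simp; linarith) (by simp; linarith)
  obtain ⟨m1, -⟩ := h.mul_pi h1
  obtain ⟨m2, -⟩ := h.mul_pi h2
  have h3 : (1 + I) * ((1 + I) * ((A / 4 : ℝ) : ℂ)) = I * ((A : ℂ) / 2) := by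
    push_cast
    linear_combination ((A : ℂ) / 4) * I_sq
  rw [h3, wp_I h.lat, e1_eq h hA] at m2
  have h4 : (℘[L] ((1 + I) * ((A / 4 : ℝ) : ℂ)) + I) ^ 2 = 0 := by
    linear_combination -m2 + I_sq
  have h5 : ℘[L] ((1 + I) * ((A / 4 : ℝ) : ℂ)) = -I := by
    have := pow_eq_zero_iff (two_ne_zero) |>.1 h4
    linear_combination this
  rw [h5, wp_real h (A / 4)] at m1
  generalize (℘[L] ((A / 4 : ℝ) : ℂ)).re = P at m1 ⊢
  have h6 : ((P ^ 2 - 2 * P - 1 : ℝ) : ℂ) = 0 := by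
    push_cast
    linear_combination -m1 - 2 * (P : ℂ) * I_sq
  exact_mod_cast h6

/-- the value at `A / 8` -/
lemma p_eighth : 0 < (℘[L] ((A / 8 : ℝ) : ℂ)).re ^ 2 - 2 * (℘[L] ((A / 8 : ℝ) : ℂ)).re - 1 := by
  have h1 := p_quarter h hA
  have h2 := p_anti h hA (x := A / 8) (y := A / 4) (by linarith) (by linarith) (by linarith)
  have h3 := p_gt h hA (x := A / 4) (by linarith) (by linarith)
  nlinarith

/-- the vertical line through `A / 2` -/
lemma vert_real (y : ℝ) : ℘[L] ((A : ℂ) / 2 + I * y) = ((℘[L] ((A : ℂ) / 2 + I * y)).re : ℂ) := by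
  have h1 := P_conj L (gconj h) ((A : ℂ) / 2 + I * y)
  have h2 : (starRingEnd ℂ) ((A : ℂ) / 2 + I * y) = -((A : ℂ) / 2 + I * y) + A := by
    rw [map_add, map_mul, conj_I, conj_ofReal, map_div₀, conj_ofReal, map_ofNat]
    ring
  rw [h2] at h1
  have h3 : ℘[L] (-((A : ℂ) / 2 + I * y) + (⟨(A : ℂ), h.om⟩ : L.lattice)) =
      ℘[L] (-((A : ℂ) / 2 + I * y)) := L.weierstrassP_add_coe _ _
  have h4 : ℘[L] (-((A : ℂ) / 2 + I * y) + A) = ℘[L] ((A : ℂ) / 2 + I * y) :=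
    h3.trans (L.weierstrassP_neg _)
  rw [h4] at h1
  exact (Complex.conj_eq_iff_re.1 h1.symm).symm

lemma vert_notMem (y : ℝ) : (A : ℂ) / 2 + I * y ∉ L.lattice :=
  not_of_re h hA 0 (by simp; linarith) (by simp; linarith)

lemma vert_gt (y : ℝ) : -1 < (℘[L] ((A : ℂ) / 2 + I * y)).re := by
  by_contra hc
  rw [not_lt] at hc
  have hcont : Continuous (fun y : ℝ => (℘[L] ((A : ℂ) / 2 + I * y)).re) := by
    have h2 : ContinuousOn L.weierstrassP (L.lattice : Set ℂ)ᶜ :=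
      L.differentiableOn_weierstrassP.continuousOn
    have h3 : Continuous fun y : ℝ => (A : ℂ) / 2 + I * y := by fun_prop
    exact Complex.continuous_re.comp (h2.comp_continuous h3 fun y => vert_notMem h hA y)
  have h0 : (℘[L] ((A : ℂ) / 2 + I * ((0 : ℝ) : ℂ))).re = 1 := by
    rw [ofReal_zero, mul_zero, add_zero, e1_eq h hA, one_re]
  obtain ⟨t, -, ht⟩ := isPreconnected_univ.intermediate_value (mem_univ y) (mem_univ (0 : ℝ))
    hcont.continuousOn (show (-1 : ℝ) ∈ Icc _ _ from ⟨hc, by rw [h0]; norm_num⟩)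
  have hI : I * ((A : ℂ) / 2) ∉ L.lattice := not_of_im h hA 0 (by simp; linarith) (by simp; linarith)
  have h4 : ℘[L] ((A : ℂ) / 2 + I * t) = ℘[L] (I * ((A : ℂ) / 2)) := by
    rw [wp_I h.lat, e1_eq h hA, vert_real h hA t]
    simp only at ht
    rw [ht]
    norm_num
  rw [wp_eq_iff L (vert_notMem h hA t) hI] at h4
  rcases h4 with h4 | h4
  · refine not_of_re h hA 0 ?_ ?_ h4
    · simp; linarith
    · simp; linarith
  · refine not_of_re h hA 0 ?_ ?_ h4
    · simp; linarith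
    · simp; linarith

end

end Pool.Agent.E8helper97.Q2
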